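import Pool.Agent.Helper85.QT.St2

/-!
# Project QT, module HN3: moduli of annuli
-/

set_option autoImplicit false

open MeasureTheory Matrix Set Topology
open scoped ENNReal ComplexConjugate

namespace Pool.Agent.Helper80.QT

open Pool.Agent.Helper85.QT Pool.Agent.Helper86.QA

private theorem det_cl (c : ℂ) :
    ((ContinuousLinearMap.toSpanSingleton ℂ c : ℂ →L[ℂ] ℂ).restrictScalars ℝ).det = ‖c‖ ^ 2 := by
  have h : (((ContinuousLinearMap.toSpanSingleton ℂ c : ℂ →L[ℂ] ℂ).restrictScalars ℝ :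
      ℂ →L[ℝ] ℂ) : ℂ →ₗ[ℝ] ℂ) = Algebra.lmul ℝ ℂ c := by
    ext x
    simp [mul_comm]
  rw [ContinuousLinearMap.det, h, ← Algebra.norm_apply, Algebra.norm_complex_apply,
    Complex.normSq_eq_norm_sq]

private theorem Sm_open (m : ℝ) : IsOpen (Sm m) :=
  (isOpen_lt continuous_const Complex.continuous_im).inter
    (isOpen_lt Complex.continuous_im continuous_const)

private theorem vol_rect (S₁ S₂ : Set ℝ) :
    volume {z : ℂ | z.re ∈ S₁ ∧ z.im ∈ S₂} = volume S₁ * volume S₂ := by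
  have h1 : {z : ℂ | z.re ∈ S₁ ∧ z.im ∈ S₂} = Complex.measurableEquivRealProd ⁻¹' (S₁ ×ˢ S₂) := by
    ext z
    rfl
  rw [h1, Complex.volume_preserving_equiv_real_prod.measure_preimage_equiv, Measure.volume_eq_prod,
    Measure.prod_prod]

private theorem cover_le {ι : Type} [Countable ι] (c : ι → ℂ) {P T : Set ℂ} (hP : MeasurableSet P)
    (hT : MeasurableSet T) (hcov : ∀ z ∈ P, ∃ i, z + c i ∈ T)
    (hdis : ∀ i j, i ≠ j → Disjoint ((fun z : ℂ => z + c i) '' P) ((fun z : ℂ => z + c j) '' P)) :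
    volume P ≤ volume T := by
  calc volume P ≤ volume (⋃ i, (fun z : ℂ => z + c i) ⁻¹' (((fun z : ℂ => z + c i) '' P) ∩ T)) := by
        refine measure_mono fun z hz => ?_
        obtain ⟨i, hi⟩ := hcov z hz
        exact mem_iUnion.2 ⟨i, ⟨z, hz, rfl⟩, hi⟩
    _ ≤ ∑' i, volume ((fun z : ℂ => z + c i) ⁻¹' (((fun z : ℂ => z + c i) '' P) ∩ T)) :=
        measure_iUnion_le _
    _ = ∑' i, volume (((fun z : ℂ => z + c i) '' P) ∩ T) :=
        tsum_congr fun i => measure_preimage_add_right _ _ _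
    _ = volume (⋃ i, ((fun z : ℂ => z + c i) '' P) ∩ T) := by
        refine (measure_iUnion ?_ ?_).symm
        · intro i j hij
          exact (hdis i j hij).mono inter_subset_left inter_subset_left
        · intro i
          refine MeasurableSet.inter ?_ hT
          rw [Set.image_add_right]
          exact (measurable_add_const (-c i)) hP
    _ ≤ volume T := measure_mono (iUnion_subset fun i => inter_subset_right)

private theorem inner1 {m : ℝ} {f : ℂ → ℂ} (hf : HN m f) {y : ℝ} (hy : y ∈ Ioo 0 m) :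
    (1 : ℝ≥0∞) ≤ ∫⁻ x in Ioo (0 : ℝ) 1,
      ENNReal.ofReal (‖deriv f ((x : ℂ) + (y : ℂ) * Complex.I)‖ ^ 2) := by
  have hmem : ∀ x : ℝ, (x : ℂ) + (y : ℂ) * Complex.I ∈ Sm m := by
    intro x
    have h1 : ((x : ℂ) + (y : ℂ) * Complex.I).im = y := by simp
    exact ⟨by rw [h1]; exact hy.1, by rw [h1]; exact hy.2⟩
  have hcd : ContinuousOn (deriv f) (Sm m) := (hf.dif.deriv (Sm_open m)).continuousOn
  have hc : Continuous (fun x : ℝ => deriv f ((x : ℂ) + (y : ℂ) * Complex.I)) :=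
    hcd.comp_continuous (by fun_prop) hmem
  have hder : ∀ x : ℝ, HasDerivAt (fun x : ℝ => (f ((x : ℂ) + (y : ℂ) * Complex.I)).re)
      (deriv f ((x : ℂ) + (y : ℂ) * Complex.I)).re x := by
    intro x
    have h1 : HasDerivAt f (deriv f ((x : ℂ) + (y : ℂ) * Complex.I)) ((x : ℂ) + (y : ℂ) * Complex.I) :=
      (hf.dif.differentiableAt ((Sm_open m).mem_nhds (hmem x))).hasDerivAt
    have h2 : HasDerivAt (fun z : ℂ => z + (y : ℂ) * Complex.I) 1 (x : ℂ) := by
      simpa using (hasDerivAt_id (x : ℂ)).add_const ((y : ℂ) * Complex.I)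
    have h3 : HasDerivAt (fun z : ℂ => f (z + (y : ℂ) * Complex.I))
        (deriv f ((x : ℂ) + (y : ℂ) * Complex.I) * 1) (x : ℂ) :=
      HasDerivAt.comp (x : ℂ) h1 h2
    rw [mul_one] at h3
    exact h3.real_of_complex
  have hcr : Continuous (fun x : ℝ => (deriv f ((x : ℂ) + (y : ℂ) * Complex.I)).re) :=
    Complex.continuous_re.comp hc
  have hI1 : ∫ x in (0 : ℝ)..1, (deriv f ((x : ℂ) + (y : ℂ) * Complex.I)).re = 1 := by
    rw [intervalIntegral.integral_eq_sub_of_hasDerivAt (fun x _ => hder x)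
      (hcr.intervalIntegrable _ _)]
    have h1 := hf.per _ (hmem 0)
    have h2 : ((1 : ℝ) : ℂ) + (y : ℂ) * Complex.I = ((0 : ℝ) : ℂ) + (y : ℂ) * Complex.I + 1 := by
      push_cast
      ring
    rw [h2, h1, Complex.add_re, Complex.one_re]
    ring
  have hI2 : ∫ x in (0 : ℝ)..1, (2 * (deriv f ((x : ℂ) + (y : ℂ) * Complex.I)).re - 1) = 1 := by
    rw [intervalIntegral.integral_sub ((hcr.const_mul 2).intervalIntegrable _ _)
      (continuous_const.intervalIntegrable _ _), intervalIntegral.integral_const_mul, hI1]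
    simp
    norm_num
  have hcn : Continuous (fun x : ℝ => ‖deriv f ((x : ℂ) + (y : ℂ) * Complex.I)‖ ^ 2) :=
    (continuous_norm.comp hc).pow 2
  have hI3 : (1 : ℝ) ≤ ∫ x in (0 : ℝ)..1, ‖deriv f ((x : ℂ) + (y : ℂ) * Complex.I)‖ ^ 2 := by
    refine hI2.symm.le.trans ?_
    refine intervalIntegral.integral_mono_on zero_le_one
      (((hcr.const_mul 2).sub continuous_const).intervalIntegrable _ _)
      (hcn.intervalIntegrable _ _) fun x _ => ?_
    have h1 := Complex.re_le_norm (deriv f ((x : ℂ) + (y : ℂ) * Complex.I))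
    nlinarith [sq_nonneg (‖deriv f ((x : ℂ) + (y : ℂ) * Complex.I)‖ - 1)]
  rw [intervalIntegral.integral_of_le (by norm_num), integral_Ioc_eq_integral_Ioo] at hI3
  rw [← ofReal_integral_eq_lintegral_ofReal
    (hcn.integrableOn_Icc.mono_set Ioo_subset_Icc_self)
    (Filter.Eventually.of_forall fun x => sq_nonneg _)]
  rw [← ENNReal.ofReal_one]
  exact ENNReal.ofReal_le_ofReal hI3

private theorem part1 {m : ℝ} {f : ℂ → ℂ} (hf : HN m f) :
    ENNReal.ofReal m ≤ volume (f '' {w : ℂ | w ∈ Sm m ∧ 0 < w.re ∧ w.re < 1}) := by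
  have hS : {w : ℂ | w ∈ Sm m ∧ 0 < w.re ∧ w.re < 1} =
      Complex.measurableEquivRealProd ⁻¹' (Ioo (0 : ℝ) 1 ×ˢ Ioo (0 : ℝ) m) := by
    ext w
    exact ⟨fun h => ⟨⟨h.2.1, h.2.2⟩, ⟨h.1.1, h.1.2⟩⟩, fun h => ⟨⟨h.2.1, h.2.2⟩, h.1.1, h.1.2⟩⟩
  have hSm : MeasurableSet {w : ℂ | w ∈ Sm m ∧ 0 < w.re ∧ w.re < 1} := by
    rw [hS]
    exact Complex.measurableEquivRealProd.measurable (measurableSet_Ioo.prod measurableSet_Ioo)
  have hsub : {w : ℂ | w ∈ Sm m ∧ 0 < w.re ∧ w.re < 1} ⊆ Sm m := fun w hw => hw.1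
  have hder : ∀ w ∈ {w : ℂ | w ∈ Sm m ∧ 0 < w.re ∧ w.re < 1}, HasFDerivWithinAt f
      ((ContinuousLinearMap.toSpanSingleton ℂ (deriv f w) : ℂ →L[ℂ] ℂ).restrictScalars ℝ)
      {w : ℂ | w ∈ Sm m ∧ 0 < w.re ∧ w.re < 1} w := by
    intro w hw
    have h1 : DifferentiableAt ℂ f w := hf.dif.differentiableAt ((Sm_open m).mem_nhds hw.1)
    exact (h1.hasDerivAt.hasFDerivAt.restrictScalars ℝ).hasFDerivWithinAt
  rw [← lintegral_abs_det_fderiv_eq_addHaar_image volume hSm hder (hf.inj.mono hsub)]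
  have h1 : ∀ w : ℂ, ENNReal.ofReal
      |((ContinuousLinearMap.toSpanSingleton ℂ (deriv f w) : ℂ →L[ℂ] ℂ).restrictScalars ℝ).det| =
      ENNReal.ofReal (‖deriv f w‖ ^ 2) := by
    intro w
    rw [det_cl, abs_of_nonneg (by positivity)]
  simp only [h1]
  rw [hS]
  have h2 := Complex.volume_preserving_equiv_real_prod.setLIntegral_comp_preimage_emb
    Complex.measurableEquivRealProd.measurableEmbedding
    (fun p : ℝ × ℝ => ENNReal.ofReal (‖deriv f ((p.1 : ℂ) + (p.2 : ℂ) * Complex.I)‖ ^ 2))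
    (Ioo (0 : ℝ) 1 ×ˢ Ioo (0 : ℝ) m)
  have h3 : ∫⁻ w in Complex.measurableEquivRealProd ⁻¹' (Ioo (0 : ℝ) 1 ×ˢ Ioo (0 : ℝ) m),
      ENNReal.ofReal (‖deriv f w‖ ^ 2) =
      ∫⁻ p in Ioo (0 : ℝ) 1 ×ˢ Ioo (0 : ℝ) m,
        ENNReal.ofReal (‖deriv f ((p.1 : ℂ) + (p.2 : ℂ) * Complex.I)‖ ^ 2) := by
    rw [← h2]
    refine lintegral_congr fun w => ?_
    show _ = ENNReal.ofReal (‖deriv f ((w.re : ℂ) + (w.im : ℂ) * Complex.I)‖ ^ 2)
    rw [Complex.re_add_im]
  have hmeas : Measurable (fun p : ℝ × ℝ =>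
      ENNReal.ofReal (‖deriv f ((p.1 : ℂ) + (p.2 : ℂ) * Complex.I)‖ ^ 2)) := by
    have h4 : Measurable (fun p : ℝ × ℝ => (p.1 : ℂ) + (p.2 : ℂ) * Complex.I) := by fun_prop
    have h5 : Measurable (fun p : ℝ × ℝ => deriv f ((p.1 : ℂ) + (p.2 : ℂ) * Complex.I)) :=
      (measurable_deriv f).comp h4
    exact (h5.norm.pow_const 2).ennreal_ofReal
  rw [h3, Measure.volume_eq_prod, ← Measure.prod_restrict, lintegral_prod_symm' _ hmeas]
  calc ENNReal.ofReal m = ∫⁻ _ in Ioo (0 : ℝ) m, 1 := by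
        rw [lintegral_const, Measure.restrict_apply_univ, Real.volume_Ioo, one_mul, sub_zero]
    _ ≤ _ := setLIntegral_mono' measurableSet_Ioo fun y hy => inner1 hf hy

private theorem per_int {m : ℝ} {f : ℂ → ℂ} (hf : HN m f) {w : ℂ} (hw : w ∈ Sm m) (k : ℤ) :
    f (w + k) = f w + k := by
  have hmem : ∀ k : ℤ, w + (k : ℂ) ∈ Sm m := by
    intro k
    have h1 : (w + (k : ℂ)).im = w.im := by simp
    exact ⟨by rw [h1]; exact hw.1, by rw [h1]; exact hw.2⟩
  induction k using Int.induction_on with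
  | zero => simp
  | succ i ih =>
    have h1 := hf.per _ (hmem (i : ℤ))
    rw [ih] at h1
    push_cast at h1 ⊢
    rw [← add_assoc, h1]
    ring
  | pred i ih =>
    have h1 := hf.per _ (hmem (-(i : ℤ) - 1))
    have h2 : w + ((-(i : ℤ) - 1 : ℤ) : ℂ) + 1 = w + ((-(i : ℤ) : ℤ) : ℂ) := by
      push_cast
      ring
    rw [h2, ih] at h1
    have h3 : f (w + ((-(i : ℤ) - 1 : ℤ) : ℂ)) = f w + ((-(i : ℤ) : ℤ) : ℂ) - 1 := by
      rw [h1]
      ring
    rw [h3]
    push_cast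
    ring

private theorem meas_rect {S₁ S₂ : Set ℝ} (h₁ : MeasurableSet S₁) (h₂ : MeasurableSet S₂) :
    MeasurableSet {z : ℂ | z.re ∈ S₁ ∧ z.im ∈ S₂} :=
  (Complex.measurable_re h₁).inter (Complex.measurable_im h₂)

theorem hHN3 : Pool.Agent.Helper85.QT.StHN3 := by
  refine ⟨fun m f _ hf => part1 hf, ?_, ?_⟩
  · intro m M f hm hf hmaps
    have hM : 0 < M := by
      have h1 : ((m / 2 : ℝ) : ℂ) * Complex.I ∈ Sm m := by
        have h2 : (((m / 2 : ℝ) : ℂ) * Complex.I).im = m / 2 := by simp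
        exact ⟨by rw [h2]; linarith, by rw [h2]; linarith⟩
      have h3 := hmaps h1
      exact h3.1.trans h3.2
    have hR : MeasurableSet {w : ℂ | w ∈ Sm m ∧ 0 < w.re ∧ w.re < 1} := by
      refine (Sm_open m).measurableSet.inter ?_
      exact (Complex.measurable_re measurableSet_Ioi).inter (Complex.measurable_re measurableSet_Iio)
    have hsub : {w : ℂ | w ∈ Sm m ∧ 0 < w.re ∧ w.re < 1} ⊆ Sm m := fun w hw => hw.1
    have hP : MeasurableSet (f '' {w : ℂ | w ∈ Sm m ∧ 0 < w.re ∧ w.re < 1}) :=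
      hR.image_of_continuousOn_injOn (hf.dif.continuousOn.mono hsub) (hf.inj.mono hsub)
    have h1 := part1 hf
    have h2 := cover_le (ι := ℤ) (fun n => (n : ℂ)) hP
      (meas_rect (measurableSet_Ico (a := (0 : ℝ)) (b := 1)) (measurableSet_Ioo (a := (0 : ℝ)) (b := M))) (by
        rintro _ ⟨w, hw, rfl⟩
        have h3 := hmaps hw.1
        refine ⟨-⌊(f w).re⌋, ?_, ?_⟩
        · have h4 : (f w + ((-⌊(f w).re⌋ : ℤ) : ℂ)).re = (f w).re - ⌊(f w).re⌋ := by
            rw [Complex.add_re, Complex.intCast_re]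
            push_cast
            ring
          rw [h4]
          exact ⟨by linarith [Int.floor_le (f w).re], by linarith [Int.lt_floor_add_one (f w).re]⟩
        · have h4 : (f w + ((-⌊(f w).re⌋ : ℤ) : ℂ)).im = (f w).im := by simp
          rw [h4]
          exact h3) (by
        intro n n' hne
        rw [Set.disjoint_left]
        rintro _ ⟨_, ⟨w, hw, rfl⟩, rfl⟩ ⟨_, ⟨w', hw', rfl⟩, he⟩
        simp only at he
        have h3 : f (w' + ((n' - n : ℤ) : ℂ)) = f w := by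
          rw [per_int hf hw'.1]
          push_cast
          linear_combination he
        have h4 : w' + ((n' - n : ℤ) : ℂ) ∈ Sm m := by
          have h1 : (w' + ((n' - n : ℤ) : ℂ)).im = w'.im := by simp
          exact ⟨by rw [h1]; exact hw'.1.1, by rw [h1]; exact hw'.1.2⟩
        have h5 := congrArg Complex.re (hf.inj h4 hw.1 h3)
        rw [Complex.add_re, Complex.intCast_re] at h5
        have h6 : ((n' - n : ℤ) : ℝ) < 1 := by linarith [hw.2.2, hw'.2.1]
        have h7 : (-1 : ℝ) < ((n' - n : ℤ) : ℝ) := by linarith [hw.2.1, hw'.2.2]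
        have h8 : n' - n < 1 := by exact_mod_cast h6
        have h9 : -1 < n' - n := by exact_mod_cast h7
        omega)
    rw [vol_rect, Real.volume_Ico, Real.volume_Ioo, sub_zero, sub_zero, ENNReal.ofReal_one, one_mul] at h2
    exact (ENNReal.ofReal_le_ofReal_iff hM.le).1 (h1.trans h2)
  · intro τ P hτ hP hdis
    have h2 := cover_le (ι := ℤ × ℤ) (fun p => (p.1 : ℂ) + p.2 * τ) hP
      (meas_rect (measurableSet_Ico (a := (0 : ℝ)) (b := 1)) (measurableSet_Ico (a := (0 : ℝ)) (b := τ.im))) (by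
        intro z _
        refine ⟨(-⌊z.re - ⌊z.im / τ.im⌋ * τ.re⌋, -⌊z.im / τ.im⌋), ?_, ?_⟩
        · have h4 : (z + (((-⌊z.re - ⌊z.im / τ.im⌋ * τ.re⌋ : ℤ) : ℂ) +
              ((-⌊z.im / τ.im⌋ : ℤ) : ℂ) * τ)).re =
              (z.re - ⌊z.im / τ.im⌋ * τ.re) - ⌊z.re - ⌊z.im / τ.im⌋ * τ.re⌋ := by
            rw [Complex.add_re, Complex.add_re, Complex.intCast_re, Complex.mul_re, Complex.intCast_re,
              Complex.intCast_im]
            push_cast
            ring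
          show (z + (((-⌊z.re - ⌊z.im / τ.im⌋ * τ.re⌋ : ℤ) : ℂ) +
              ((-⌊z.im / τ.im⌋ : ℤ) : ℂ) * τ)).re ∈ _
          rw [h4]
          exact ⟨by linarith [Int.floor_le (z.re - ⌊z.im / τ.im⌋ * τ.re)],
            by linarith [Int.lt_floor_add_one (z.re - ⌊z.im / τ.im⌋ * τ.re)]⟩
        · have h4 : (z + (((-⌊z.re - ⌊z.im / τ.im⌋ * τ.re⌋ : ℤ) : ℂ) +
              ((-⌊z.im / τ.im⌋ : ℤ) : ℂ) * τ)).im =
              (z.im / τ.im - ⌊z.im / τ.im⌋) * τ.im := by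
            rw [Complex.add_im, Complex.add_im, Complex.intCast_im, Complex.mul_im, Complex.intCast_re,
              Complex.intCast_im]
            push_cast
            field_simp
            ring
          show (z + (((-⌊z.re - ⌊z.im / τ.im⌋ * τ.re⌋ : ℤ) : ℂ) +
              ((-⌊z.im / τ.im⌋ : ℤ) : ℂ) * τ)).im ∈ _
          rw [h4]
          have h5 := Int.floor_le (z.im / τ.im)
          have h6 := Int.lt_floor_add_one (z.im / τ.im)
          exact ⟨mul_nonneg (by linarith) hτ.le, by nlinarith⟩) (by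
        rintro ⟨n, k⟩ ⟨n', k'⟩ hne
        exact hdis n k n' k' hne)
    rw [vol_rect, Real.volume_Ico, Real.volume_Ico, sub_zero, sub_zero, ENNReal.ofReal_one, one_mul] at h2
    exact h2

end Pool.Agent.Helper80.QT
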