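import Pool.Agent.Helper85.QT.St1

/-!
# Project QT, module SH1: the set `ZZ` is measurable and invariant
-/

set_option autoImplicit false

open MeasureTheory Matrix Set Topology
open scoped ENNReal ComplexConjugate

namespace Pool.Agent.Helper80.QT

open Pool.Agent.Helper85.QT Pool.Agent.Helper86.QA

private lemma pp_cont {x : Pt} {ξ : ℂ} (hx : x ∈ up) :
    ContinuousAt (fun p : Pt × ℂ => pp p.1 p.2) (x, ξ) := by
  have hx2 : (0 : ℝ) < x.2 := hx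
  unfold pp
  refine ContinuousAt.div (by fun_prop) (by fun_prop) ?_
  have : 0 < ‖x.1 - ξ‖ ^ 2 + x.2 ^ 2 := by positivity
  exact this.ne'

private lemma pp_cont' {x : Pt} {ξ : ℂ} (hx : x ∈ up) (k : ℂ) :
    ContinuousAt (fun p : Pt × ℂ => pp p.1 k) (x, ξ) := by
  have hx2 : (0 : ℝ) < x.2 := hx
  unfold pp
  refine ContinuousAt.div (by fun_prop) (by fun_prop) ?_
  have : 0 < ‖x.1 - k‖ ^ 2 + x.2 ^ 2 := by positivity
  exact this.ne'

private lemma meas_C {A : Set ℂ} (hA : IsOpen A) (L : Set ℂ) :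
    MeasurableSet {p : Pt × ℂ | p.1 ∈ up ∧ p.2 ∈ A ∧ 1 ≤ 4 * p.1.2 * pp p.1 p.2 ∧
      ∀ k ∈ L, 1 ≤ 4 * ‖p.2 - k‖ ^ 2 * pp p.1 p.2 * pp p.1 k} := by
  have hU : IsOpen {p : Pt × ℂ | p.1 ∈ up ∧ p.2 ∈ A} :=
    (up_open.preimage continuous_fst).inter (hA.preimage continuous_snd)
  have hO : IsOpen {p : Pt × ℂ | (p.1 ∈ up ∧ p.2 ∈ A) ∧ (4 * p.1.2 * pp p.1 p.2 < 1 ∨
      ∃ k ∈ L, 4 * ‖p.2 - k‖ ^ 2 * pp p.1 p.2 * pp p.1 k < 1)} := by
    rw [isOpen_iff_mem_nhds]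
    rintro ⟨x, ξ⟩ ⟨hp, hq⟩
    have hx : x ∈ up := hp.1
    rcases hq with hq | ⟨k, hk, hq⟩
    · have h1 : ContinuousAt (fun p : Pt × ℂ => 4 * p.1.2 * pp p.1 p.2) (x, ξ) :=
        ContinuousAt.mul (by fun_prop) (pp_cont hx)
      filter_upwards [hU.mem_nhds hp, h1.eventually_lt continuousAt_const hq] with p hp1 hp2
      exact ⟨hp1, Or.inl hp2⟩
    · have h1 : ContinuousAt (fun p : Pt × ℂ => 4 * ‖p.2 - k‖ ^ 2 * pp p.1 p.2 * pp p.1 k) (x, ξ) :=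
        (ContinuousAt.mul (by fun_prop) (pp_cont hx)).mul (pp_cont' hx k)
      filter_upwards [hU.mem_nhds hp, h1.eventually_lt continuousAt_const hq] with p hp1 hp2
      exact ⟨hp1, Or.inr ⟨k, hk, hp2⟩⟩
  have hE : {p : Pt × ℂ | p.1 ∈ up ∧ p.2 ∈ A ∧ 1 ≤ 4 * p.1.2 * pp p.1 p.2 ∧
      ∀ k ∈ L, 1 ≤ 4 * ‖p.2 - k‖ ^ 2 * pp p.1 p.2 * pp p.1 k} =
      {p : Pt × ℂ | p.1 ∈ up ∧ p.2 ∈ A} \ {p : Pt × ℂ | (p.1 ∈ up ∧ p.2 ∈ A) ∧ (4 * p.1.2 * pp p.1 p.2 < 1 ∨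
      ∃ k ∈ L, 4 * ‖p.2 - k‖ ^ 2 * pp p.1 p.2 * pp p.1 k < 1)} := by
    ext p
    simp only [mem_ofPred_eq, mem_sdiff, not_and, not_or, not_lt, not_exists]
    constructor
    · rintro ⟨h1, h2, h3, h4⟩
      exact ⟨⟨h1, h2⟩, fun _ => ⟨h3, fun k hk => h4 k hk⟩⟩
    · rintro ⟨⟨h1, h2⟩, h3⟩
      obtain ⟨h4, h5⟩ := h3 ⟨h1, h2⟩
      exact ⟨h1, h2, h4, fun k hk => h5 k hk⟩
  rw [hE]
  exact hU.measurableSet.diff hO.measurableSet

private lemma alg1 {a b c d k' k : ℂ} (hdet : a * d - b * c = 1) (hq : -c * k' + a ≠ 0)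
    (hk : k = (d * k' + -b) / (-c * k' + a)) :
    c * k + d = 1 / (-c * k' + a) ∧ (a * k + b) / (c * k + d) = k' := by
  have h1 : k * (-c * k' + a) = d * k' + -b := by
    rw [hk, div_mul_cancel₀ _ hq]
  have h2 : c * k + d = 1 / (-c * k' + a) := by
    rw [eq_div_iff hq]
    linear_combination c * h1 + hdet
  refine ⟨h2, ?_⟩
  have h3 : a * k + b = k' / (-c * k' + a) := by
    rw [eq_div_iff hq]
    linear_combination a * h1 + k' * hdet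
  rw [h2, h3, div_div_div_cancel_right₀ hq, div_one]

private lemma alg2 {a b c d ξ : ℂ} (hdet : a * d - b * c = 1) (hc : c ≠ 0) (hj : c * ξ + d ≠ 0) :
    (a * ξ + b) / (c * ξ + d) - a / c = -1 / (c * (c * ξ + d)) := by
  rw [div_sub_div _ _ hj hc, div_eq_div_iff (mul_ne_zero hj hc) (mul_ne_zero hc hj)]
  linear_combination (-(c * (c * ξ + d))) * hdet

private lemma alg3 {a b c d : ℂ} (hdet : a * d - b * c = 1) (hc : c ≠ 0) :
    b - a / c * d = -1 / c := by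
  rw [eq_div_iff hc, sub_mul, mul_right_comm, div_mul_cancel₀ _ hc]
  linear_combination -hdet

private lemma ralg1 {n j jk P Q : ℝ} (hj : 0 < j) (hjk : 0 < jk) :
    4 * (n / (j * jk)) ^ 2 * (P * j ^ 2) * (Q * jk ^ 2) = 4 * n ^ 2 * P * Q := by
  field_simp

private lemma ralg2 {c j P t : ℝ} (hj : 0 < j) (hc : 0 < c) :
    4 * (1 / (c * j)) ^ 2 * (P * j ^ 2) * (t * c ^ 2) = 4 * t * P := by
  field_simp

private lemma ralg3 {c n D P t : ℝ} (hD : 0 < D) (hc : 0 < c) :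
    4 * (t / (c ^ 2 * D)) * (P * (c * n) ^ 2) = 4 * n ^ 2 * P * (t / D) := by
  field_simp

theorem hSH1 (hACT : Pool.Agent.Helper86.QA.StACT) (hPOI : Pool.Agent.Helper86.QA.StPOI)
    (hCHV : Pool.Agent.Helper86.QA.StCHV) (hSB3 : Pool.Agent.Helper85.QT.StSB3)
    (hSB4 : Pool.Agent.Helper85.QT.StSB4) : Pool.Agent.Helper85.QT.StSH1 := by
  intro Γ _ ρ A B hKD S
  obtain ⟨a1, a2, a3, -, -, -⟩ := hACT
  obtain ⟨p1, p2, -, -, -⟩ := hPOI
  obtain ⟨-, -, c3, -, -⟩ := hCHV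
  obtain ⟨s1, s2, s3⟩ := hSB3 Γ ρ A B hKD
  obtain ⟨-, -, -, s4⟩ := hSB4 Γ ρ A B hKD
  refine ⟨?_, ?_⟩
  · have h1 : ZZ A B S = (Prod.fst ⁻¹' {x : Pt | x ∈ up ∧ sb A B x ≤ S}) ∩
        {p : Pt × ℂ | p.1 ∈ up ∧ p.2 ∈ A ∧ 1 ≤ 4 * p.1.2 * pp p.1 p.2 ∧
          ∀ k ∈ LS A B, 1 ≤ 4 * ‖p.2 - k‖ ^ 2 * pp p.1 p.2 * pp p.1 k} := by
      ext p
      simp only [ZZ, mem_ofPred_eq, mem_inter_iff, mem_preimage]
      tauto
    rw [h1]
    exact (measurable_fst (s4 S)).inter (meas_C hKD.opA _)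
  · rintro γ x ξ ⟨hx, hξ, hS, h4, hk⟩
    simp only at hx hξ hS h4 hk
    have hx2 : (0 : ℝ) < x.2 := hx
    obtain ⟨hj, hη⟩ := hKD.mpA γ ξ hξ
    obtain ⟨hden, hy, -⟩ := a1 (ρ γ) x hx
    have hdet : ρ γ 0 0 * ρ γ 1 1 - ρ γ 0 1 * ρ γ 1 0 = 1 := by
      have := (ρ γ).det_coe
      rwa [Matrix.det_fin_two] at this
    have hpp := p1 (ρ γ) x ξ hx hj
    have hjn : 0 < ‖ρ γ 1 0 * ξ + ρ γ 1 1‖ := norm_pos_iff.mpr hj
    have hpx : 0 < pp x ξ := (p2 ξ x hx).2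
    refine ⟨hy, hη, ?_, ?_, ?_⟩
    · simp only
      rw [s1 γ x hx]
      exact hS
    · simp only
      rw [hpp]
      have hy2 : (ga (ρ γ) x).2 = x.2 / den (ρ γ) x := rfl
      rw [hy2]
      by_cases hc : ρ γ 1 0 = 0
      · have hd : den (ρ γ) x = ‖ρ γ 1 0 * ξ + ρ γ 1 1‖ ^ 2 := by
          unfold den
          rw [hc]
          simp
        rw [hd]
        calc (1 : ℝ) ≤ 4 * x.2 * pp x ξ := h4
          _ = 4 * (x.2 / ‖ρ γ 1 0 * ξ + ρ γ 1 1‖ ^ 2) * (pp x ξ * ‖ρ γ 1 0 * ξ + ρ γ 1 1‖ ^ 2) := by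
            field_simp
      · obtain ⟨k1, -⟩ := s3 γ hc
        have h5 := hk _ k1
        have hcn : 0 < ‖ρ γ 1 0‖ := norm_pos_iff.mpr hc
        have e1 : ‖ρ γ 1 0 * ξ + ρ γ 1 1‖ = ‖ρ γ 1 0‖ * ‖ξ - -(ρ γ 1 1 / ρ γ 1 0)‖ := by
          rw [← norm_mul]
          congr 1
          field_simp
          ring
        have e2 : ‖ρ γ 1 0 * x.1 + ρ γ 1 1‖ = ‖ρ γ 1 0‖ * ‖x.1 - -(ρ γ 1 1 / ρ γ 1 0)‖ := by
          rw [← norm_mul]
          congr 1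
          field_simp
          ring
        have hd : den (ρ γ) x = ‖ρ γ 1 0‖ ^ 2 * (‖x.1 - -(ρ γ 1 1 / ρ γ 1 0)‖ ^ 2 + x.2 ^ 2) := by
          unfold den
          rw [e2]
          ring
        have hD : 0 < ‖x.1 - -(ρ γ 1 1 / ρ γ 1 0)‖ ^ 2 + x.2 ^ 2 := by positivity
        rw [hd, e1]
        have e3 : pp x (-(ρ γ 1 1 / ρ γ 1 0)) = x.2 / (‖x.1 - -(ρ γ 1 1 / ρ γ 1 0)‖ ^ 2 + x.2 ^ 2) := rfl
        rw [e3] at h5
        rw [ralg3 hD hcn]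
        exact h5
    · simp only
      intro k' hk'
      by_cases hck : -ρ γ 1 0 * k' + ρ γ 0 0 = 0
      · have hc : ρ γ 1 0 ≠ 0 := by
          intro h0
          rw [h0] at hck hdet
          simp only [neg_zero, zero_mul, zero_add] at hck
          rw [hck] at hdet
          simp at hdet
        have hcn : 0 < ‖ρ γ 1 0‖ := norm_pos_iff.mpr hc
        have hkc : k' = ρ γ 0 0 / ρ γ 1 0 := by
          rw [eq_div_iff hc]
          linear_combination -hck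
        have e1 : ‖mb (ρ γ) ξ - k'‖ = 1 / (‖ρ γ 1 0‖ * ‖ρ γ 1 0 * ξ + ρ γ 1 1‖) := by
          have : mb (ρ γ) ξ - k' = -1 / (ρ γ 1 0 * (ρ γ 1 0 * ξ + ρ γ 1 1)) := by
            rw [hkc]
            exact alg2 hdet hc hj
          rw [this, norm_div, norm_mul, norm_neg, norm_one]
        have e2 : pp (ga (ρ γ) x) k' = x.2 * ‖ρ γ 1 0‖ ^ 2 := by
          rw [← (p2 k' _ hy).1, ← a2 _ _ x hx]
          have h10 : (gi k' * ρ γ) 1 0 = 0 := by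
            have : (gi k' * ρ γ) 1 0 = ρ γ 0 0 - k' * ρ γ 1 0 := by
              simp [gi, Matrix.mul_apply, Fin.sum_univ_two]
              ring
            rw [this]
            linear_combination hck
          have h11 : (gi k' * ρ γ) 1 1 = -1 / ρ γ 1 0 := by
            have : (gi k' * ρ γ) 1 1 = ρ γ 0 1 - k' * ρ γ 1 1 := by
              simp [gi, Matrix.mul_apply, Fin.sum_univ_two]
              ring
            rw [this, hkc]
            exact alg3 hdet hc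
          show x.2 / den (gi k' * ρ γ) x = _
          unfold den
          rw [h10, h11]
          simp only [zero_mul, zero_add, norm_zero, norm_div, norm_neg, norm_one, ne_eq,
            OfNat.ofNat_ne_zero, not_false_eq_true, zero_pow, add_zero]
          field_simp
        rw [hpp, e1, e2, ralg2 hjn hcn]
        exact h4
      · have hinv : ρ γ⁻¹ = (ρ γ)⁻¹ := map_inv ρ γ
        have i10 : ρ γ⁻¹ 1 0 = -ρ γ 1 0 := by
          rw [hinv, Matrix.SpecialLinearGroup.coe_inv, Matrix.adjugate_fin_two]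
          rfl
        have i11 : ρ γ⁻¹ 1 1 = ρ γ 0 0 := by
          rw [hinv, Matrix.SpecialLinearGroup.coe_inv, Matrix.adjugate_fin_two]
          rfl
        have i00 : ρ γ⁻¹ 0 0 = ρ γ 1 1 := by
          rw [hinv, Matrix.SpecialLinearGroup.coe_inv, Matrix.adjugate_fin_two]
          rfl
        have i01 : ρ γ⁻¹ 0 1 = -ρ γ 0 1 := by
          rw [hinv, Matrix.SpecialLinearGroup.coe_inv, Matrix.adjugate_fin_two]
          rfl
        have hk2 := s2 γ⁻¹ k' hk' (by rw [i10, i11]; exact hck)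
        have hkv : mb (ρ γ⁻¹) k' = (ρ γ 1 1 * k' + -ρ γ 0 1) / (-ρ γ 1 0 * k' + ρ γ 0 0) := by
          unfold mb
          rw [i00, i01, i10, i11]
        generalize mb (ρ γ⁻¹) k' = k at hk2 hkv
        obtain ⟨hkd, hkm⟩ := alg1 hdet hck hkv
        have hkd0 : ρ γ 1 0 * k + ρ γ 1 1 ≠ 0 := by
          rw [hkd]
          exact one_div_ne_zero hck
        have hkm : mb (ρ γ) k = k' := hkm
        have h6 := hk k hk2
        have e1 : ‖mb (ρ γ) ξ - k'‖ = ‖ξ - k‖ /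
            (‖ρ γ 1 0 * ξ + ρ γ 1 1‖ * ‖ρ γ 1 0 * k + ρ γ 1 1‖) := by
          rw [← hkm, c3 (ρ γ) ξ k hj hkd0, norm_div, norm_mul]
        have e2 := p1 (ρ γ) x k hx hkd0
        rw [hkm] at e2
        have hkn : 0 < ‖ρ γ 1 0 * k + ρ γ 1 1‖ := norm_pos_iff.mpr hkd0
        rw [e1, hpp, e2, ralg1 hjn hkn]
        exact h6

end Pool.Agent.Helper80.QT
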