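import Pool.Agent.Helper69.QT.St
import Pool.Agent.Helper79.QE.PSUB

/-!
# Project QD, T1, module IVR: elementary facts about invariant coefficients
-/

set_option autoImplicit false

open MeasureTheory Set Filter Topology Complex
open scoped ENNReal ComplexConjugate

namespace Pool.Agent.Helper80.QT

open Pool.Agent.Helper69.QT
open Pool.Agent.Helper68.QC (InvB Intw den mob)
open Pool.Agent.Helper61.QE (D Dx nuT Ab rf)
open Pool.Agent.Helper35.PM (SL)
open Pool.Agent.Helper20.QD (IsSU)

private lemma det_eq (A : SL) : A 0 0 * A 1 1 - A 0 1 * A 1 0 = 1 := by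
  have h := A.det_coe
  rwa [Matrix.det_fin_two] at h

private lemma ae_den (A : SL) : ∀ᵐ z : ℂ, den A z ≠ 0 := by
  rw [ae_iff]
  have h1 : {z : ℂ | ¬ den A z ≠ 0}.Subsingleton := by
    intro z hz w hw
    simp only [mem_ofPred_eq, not_not] at hz hw
    unfold den at hz hw
    have hc : A 1 0 ≠ 0 := by
      intro h0
      rw [h0, zero_mul, zero_add] at hz
      have := det_eq A
      rw [hz, h0] at this
      simp at this
    have h2 : A 1 0 * z = A 1 0 * w := by linear_combination hz - hw
    exact mul_left_cancel₀ hc h2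
  exact h1.finite.measure_zero _

private lemma five {A : SL} (hA : IsSU A) {z : ℂ} (hd : den A z ≠ 0) :
    (1 - ‖mob A z‖ ^ 2) * ‖den A z‖ ^ 2 = 1 - ‖z‖ ^ 2 := by
  obtain ⟨-, -, -, -, h5, -⟩ := Pool.Agent.Helper79.QE.pSUB
  exact h5 A hA z hd

private lemma mem_D {z : ℂ} : z ∈ D ↔ 0 < 1 - ‖z‖ ^ 2 := by
  rw [Metric.mem_ball, dist_zero_right]
  constructor
  · intro h
    nlinarith [norm_nonneg z]
  · intro h
    by_contra h2
    nlinarith [not_lt.1 h2]

private lemma mob_D {A : SL} (hA : IsSU A) {z : ℂ} (hd : den A z ≠ 0) : mob A z ∈ D ↔ z ∈ D := by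
  rw [mem_D, mem_D, ← five hA hd]
  have h1 : 0 < ‖den A z‖ ^ 2 := by positivity
  exact (mul_pos_iff_of_pos_right h1).symm

private lemma ind_inv {A : SL} {μ : ℂ → ℂ} {S : Set ℂ} (h : InvB A μ)
    (hS : ∀ z, den A z ≠ 0 → (mob A z ∈ S ↔ z ∈ S)) : InvB A (Set.indicator S μ) := by
  unfold InvB at h ⊢
  filter_upwards [h, ae_den A] with z h1 h2
  by_cases hz : z ∈ S
  · rw [Set.indicator_of_mem hz, Set.indicator_of_mem ((hS z h2).2 hz)]
    exact h1
  · rw [Set.indicator_of_notMem hz, Set.indicator_of_notMem (fun h => hz ((hS z h2).1 h)), zero_mul,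
      zero_mul]

private lemma intw_su {A B : SL} (hA : IsSU A) (h : Intw A B (fun z => z)) : IsSU B := by
  obtain ⟨h1, h2, -, -⟩ := h
  have key : ∀ z : ℂ, (A 0 0 * z + A 0 1) * (B 1 0 * z + B 1 1) =
      (B 0 0 * z + B 0 1) * (A 1 0 * z + A 1 1) := by
    intro z
    by_cases hz : den A z = 0
    · have hz' := (h1 z).1 hz
      unfold den at hz hz'
      rw [hz, hz', mul_zero, mul_zero]
    · have hz' : den B z ≠ 0 := fun h => hz ((h1 z).2 h)
      have h3 := h2 z hz
      simp only [mob] at h3
      rw [div_eq_div_iff hz hz'] at h3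
      exact h3
  have e0 := key 0
  have e1 := key 1
  have e2 := key (-1)
  have dA := det_eq A
  have dB := det_eq B
  have k1 : A 0 1 * B 1 1 = B 0 1 * A 1 1 := by linear_combination e0
  have k2 : A 0 0 * B 1 0 = B 0 0 * A 1 0 := by linear_combination (e1 + e2) / 2 - e0
  have k3 : A 0 0 * B 1 1 + A 0 1 * B 1 0 = B 0 0 * A 1 1 + B 0 1 * A 1 0 := by
    linear_combination (e1 - e2) / 2
  set l : ℂ := A 1 1 * B 0 0 - A 0 1 * B 1 0 with hl
  have p1 : B 0 0 = l * A 0 0 := by
    rw [hl]
    linear_combination (-B 0 0) * dA + A 0 1 * k2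
  have p2 : B 0 1 = l * A 0 1 := by
    rw [hl]
    linear_combination (-B 0 1) * dA - A 0 0 * k1 + A 0 1 * k3
  have p3 : B 1 0 = l * A 1 0 := by
    rw [hl]
    linear_combination (-B 1 0) * dA + A 1 1 * k2
  have p4 : B 1 1 = l * A 1 1 := by
    rw [hl]
    linear_combination (-B 1 1) * dA - A 1 0 * k1 + A 1 1 * k3
  have hl2 : l ^ 2 = 1 := by
    rw [p1, p2, p3, p4] at dB
    linear_combination dB - l ^ 2 * dA
  have hlc : conj l = l := by
    have hl3 : (l - 1) * (l + 1) = 0 := by linear_combination hl2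
    rcases mul_eq_zero.1 hl3 with h | h
    · rw [sub_eq_zero.1 h, map_one]
    · rw [eq_neg_of_add_eq_zero_left h, map_neg, map_one]
  refine ⟨?_, ?_⟩
  · show B 1 1 = conj (B 0 0)
    rw [p4, p1, map_mul, hlc]
    have : A 1 1 = conj (A 0 0) := hA.1
    rw [this]
  · show B 1 0 = conj (B 0 1)
    rw [p3, p2, map_mul, hlc]
    have : A 1 0 = conj (A 0 1) := hA.2
    rw [this]

private lemma nuT_inv {A : SL} {h : ℂ → ℂ} (hA : IsSU A) (hol : DifferentiableOn ℂ h D)
    (heq : ∃ c, ∀ z ∈ D, h (mob A z) = h z + c) : InvB A (nuT h) := by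
  obtain ⟨-, g2, -, g4, -, g6, -, -, -, -⟩ := Pool.Agent.Helper79.QE.pSUB
  obtain ⟨c, hc⟩ := heq
  unfold InvB
  filter_upwards [ae_den A] with z hd
  have h5 := five hA hd
  have hdp : 0 < ‖den A z‖ ^ 2 := by positivity
  by_cases hz : 1 < ‖z‖
  · have hm : 1 < ‖mob A z‖ := by
      by_contra h2
      have h3 : 0 ≤ 1 - ‖mob A z‖ ^ 2 := by nlinarith [norm_nonneg (mob A z), not_lt.1 h2]
      have h4 := mul_nonneg h3 hdp.le
      rw [h5] at h4
      nlinarith
    have hz0 : z ≠ 0 := by
      rintro rfl
      simp at hz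
      linarith
    have hw0 : mob A z ≠ 0 := by
      intro h
      rw [h] at hm
      simp at hm
      linarith
    have hr := g6 A hA z hz0
    unfold nuT
    rw [if_pos hm, if_pos hz, ← hr]
    have hu : rf z ∈ D := by
      rw [Metric.mem_ball, dist_zero_right]
      unfold rf
      rw [norm_div, norm_one, RCLike.norm_conj, div_lt_one (by linarith)]
      exact hz
    have hu1 : ‖rf z‖ ≤ 1 := by
      rw [Metric.mem_ball, dist_zero_right] at hu
      exact hu.le
    have hdu := g4 A hA (rf z) hu1
    have hvD : mob A (rf z) ∈ D := (mob_D hA hdu).2 hu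
    have hder : deriv h (mob A (rf z)) = den A (rf z) ^ 2 * deriv h (rf z) := by
      have d1 : HasDerivAt h (deriv h (mob A (rf z))) (mob A (rf z)) :=
        (hol.differentiableAt (Metric.isOpen_ball.mem_nhds hvD)).hasDerivAt
      have d2 := HasDerivAt.comp (rf z) d1 (g2 A (rf z) hdu)
      have d3 : HasDerivAt (fun w => h w + c) (deriv h (rf z)) (rf z) :=
        ((hol.differentiableAt (Metric.isOpen_ball.mem_nhds hu)).hasDerivAt).add_const c
      have d4 : (h ∘ mob A) =ᶠ[𝓝 (rf z)] (fun w => h w + c) := by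
        filter_upwards [Metric.isOpen_ball.mem_nhds hu] with w hw
        exact hc w hw
      have d5 := (d2.congr_of_eventuallyEq d4.symm).unique d3
      rw [← d5]
      field_simp
    rw [hder]
    have hdrf : den A (rf z) = conj (mob A z) * conj (den A z) / conj z := by
      have hzc : conj z ≠ 0 := (map_ne_zero _).2 hz0
      have e1 : mob A z * den A z = A 0 0 * z + A 0 1 := by
        unfold mob
        rw [div_mul_cancel₀ _ hd]
      rw [← map_mul, e1]
      unfold den rf
      have f1 : A 1 1 = conj (A 0 0) := hA.1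
      have f2 : A 1 0 = conj (A 0 1) := hA.2
      rw [f1, f2, map_add, map_mul]
      field_simp
      ring
    generalize deriv h (rf z) = q
    rw [hdrf]
    generalize hW : mob A z = W at hw0
    generalize hN : den A z = N at hd
    have hzc : conj z ≠ 0 := (map_ne_zero _).2 hz0
    have hWc : conj W ≠ 0 := (map_ne_zero _).2 hw0
    have hNc : conj N ≠ 0 := (map_ne_zero _).2 hd
    by_cases hq : q = 0
    · rw [hq]
      simp
    have hqc : conj q ≠ 0 := (map_ne_zero _).2 hq
    simp only [map_mul, map_pow, map_div₀, Complex.conj_conj]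
    field_simp
  · have hm : ¬ 1 < ‖mob A z‖ := by
      intro h2
      have h3 : 1 - ‖mob A z‖ ^ 2 < 0 := by nlinarith
      have h4 := mul_neg_of_neg_of_pos h3 hdp
      rw [h5] at h4
      nlinarith [norm_nonneg z, not_lt.1 hz]
    unfold nuT
    rw [if_neg hm, if_neg hz, zero_mul, zero_mul]

theorem dIVR : St_IVR := by
  refine ⟨?_, ?_, ?_, ?_, ?_⟩
  · intro A μ hA h
    exact ind_inv h fun z hz => mob_D hA hz
  · intro A μ hA h
    exact ind_inv h fun z hz => not_congr (mob_D hA hz)
  · intro A μ ν a b h1 h2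
    unfold InvB at h1 h2 ⊢
    filter_upwards [h1, h2] with z e1 e2
    linear_combination a * e1 + b * e2
  · intro A B hA h
    exact intw_su hA h
  · intro Γ _ s h hs hab
    refine ⟨fun γ => nuT_inv (hs γ) hab.hol (hab.eqv γ), ?_, ?_, ?_⟩
    · have m1 : Measurable (fun z : ℂ => conj z) := Complex.continuous_conj.measurable
      have m2 : Measurable rf := by
        unfold rf
        exact measurable_const.div m1
      have m3 : Measurable (fun z : ℂ => deriv h (rf z)) := (measurable_deriv h).comp m2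
      have m4 : Measurable (fun z : ℂ => conj (deriv h (rf z))) := m1.comp m3
      unfold nuT
      refine Measurable.ite (measurableSet_lt measurable_const measurable_norm) ?_ measurable_const
      exact (m3.div m4).mul ((measurable_id.pow_const 2).div (m1.pow_const 2))
    · intro z
      unfold nuT
      split_ifs with hz
      · rw [norm_mul, norm_div, norm_div, norm_pow, norm_pow, RCLike.norm_conj, RCLike.norm_conj]
        exact mul_le_one₀ (div_self_le_one _) (div_nonneg (by positivity) (by positivity))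
          (div_self_le_one _)
      · simp
    · intro z hz
      unfold nuT
      rw [if_neg (not_lt.2 hz)]

end Pool.Agent.Helper80.QT
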